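import Pool.Agent.PFS.StmtsH

set_option autoImplicit false

namespace Pool.Agent.PFS.H92

theorem gh2 (hGH1 : Gh1Stmt) (hNUM : NumStmt) : Gh2Stmt := by
  intro h
  obtain ⟨D₀, hD₀⟩ := hNUM h
  refine ⟨D₀, ?_⟩
  intro X G L hG N c hc
  have tri : ∀ x y z : X, G.dist x z ≤ G.dist x y + G.dist y z := fun x y z =>
    hG.conn.dist_triangle
  have step : ∀ i, i < N → G.dist (c i) (c (i + 1)) ≤ 1 := by
    intro i hi
    have := hc i (i + 1) (by omega) (by omega)
    omega
  have hcd : ∀ i j : ℕ, i ≤ j → j ≤ N → G.dist (c i) (c j) = j - i := by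
    intro i j hij hj
    have := hc i j hij hj
    omega
  let P : ℕ → Prop := fun D => ∃ (a b : ℕ) (u : X), a ≤ b ∧ b ≤ N ∧ u ∈ L (c a) (c b) ∧
    ∀ i, a ≤ i → i ≤ b → D ≤ G.dist u (c i)
  have hP0 : P 0 := by
    obtain ⟨M, e, he0, -, he, -⟩ := hG.chain (c 0) (c 0)
    exact ⟨0, 0, e 0, le_rfl, Nat.zero_le _, he 0 (Nat.zero_le _), fun i _ _ => Nat.zero_le _⟩
  have hPb : ∀ D, P D → D ≤ h * (N + 1) := by
    rintro D ⟨a, b, u, hab, hbN, hu, hd⟩
    obtain ⟨i, hi1, hi2, hi3⟩ := hGH1 X G L h hG N c a b hab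
      ((Nat.sub_le b a).trans (hbN.trans (Nat.lt_two_pow_self).le))
      (fun i _ hi => step i (by omega)) u hu
    exact (hd i hi1 hi2).trans hi3
  obtain ⟨D, hPD, hmax⟩ : ∃ D, P D ∧ ∀ D', P D' → D' ≤ D := by
    have hb : BddAbove {D | P D} := ⟨h * (N + 1), fun D hD => hPb D hD⟩
    exact ⟨sSup {D | P D}, Nat.sSup_mem ⟨0, hP0⟩ hb, fun D' hD' => le_csSup hb hD'⟩
  -- every point of a set of the geodesic is within D
  have hNP : ∀ a b : ℕ, a ≤ b → b ≤ N → ∀ v ∈ L (c a) (c b), ∃ i, a ≤ i ∧ i ≤ b ∧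
      G.dist v (c i) ≤ D := by
    intro a b hab hb v hv
    by_contra hcon
    push Not at hcon
    have : P (D + 1) := ⟨a, b, v, hab, hb, hv, fun i h1 h2 => hcon i h1 h2⟩
    have := hmax _ this
    omega
  have hDD : D ≤ D₀ := by
    apply hD₀
    intro k hk
    obtain ⟨a, b, u, hab, hbN, hu, hd⟩ := hPD
    obtain ⟨p, hp1, hp2, hp3⟩ := hNP a b hab hbN u hu
    obtain ⟨a', ha'⟩ : ∃ a', a' = max a (p - (2 * D + 2 * h + 1)) := ⟨_, rfl⟩
    obtain ⟨b', hb'⟩ : ∃ b', b' = min b (p + (2 * D + 2 * h + 1)) := ⟨_, rfl⟩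
    have haa : a ≤ a' := by omega
    have hap : a' ≤ p := by omega
    have hpb : p ≤ b' := by omega
    have hbb : b' ≤ b := by omega
    have h3h : 3 * h ≤ h * (k + 3) := by nlinarith
    -- the three cases
    have case1 : ∀ v ∈ L (c a) (c a'), G.dist u v ≤ 2 * h → D ≤ h * (k + 3) := by
      intro v hv hdv
      by_cases haeq : a' = a
      · rw [haeq] at hv
        have h1 := hG.near (c a) (c a) (by rw [SimpleGraph.dist_self]; omega) v hv
        have h2 := hd a le_rfl hab
        have h3 := tri u v (c a)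
        rw [SimpleGraph.dist_comm] at h1
        omega
      · exfalso
        obtain ⟨i, hi1, hi2, hi3⟩ := hNP a a' haa (by omega) v hv
        have h1 := hcd i p (by omega) (by omega)
        have h2 := tri (c i) v (c p)
        have h3 := tri v u (c p)
        rw [SimpleGraph.dist_comm] at hi3
        have h4 : G.dist v u = G.dist u v := SimpleGraph.dist_comm
        omega
    have case3 : ∀ v ∈ L (c b') (c b), G.dist u v ≤ 2 * h → D ≤ h * (k + 3) := by
      intro v hv hdv
      by_cases hbeq : b' = b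
      · rw [hbeq] at hv
        have h1 := hG.near (c b) (c b) (by rw [SimpleGraph.dist_self]; omega) v hv
        have h2 := hd b hab le_rfl
        have h3 := tri u v (c b)
        rw [SimpleGraph.dist_comm] at h1
        omega
      · exfalso
        obtain ⟨i, hi1, hi2, hi3⟩ := hNP b' b hbb (by omega) v hv
        have h1 := hcd p i (by omega) (by omega)
        have h2 := tri (c p) u (c i)
        have h3 := tri u v (c i)
        have h4 : G.dist (c p) u = G.dist u (c p) := SimpleGraph.dist_comm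
        omega
    have case2 : ∀ v ∈ L (c a') (c b'), G.dist u v ≤ 2 * h → D ≤ h * (k + 3) := by
      intro v hv hdv
      obtain ⟨i, hi1, hi2, hi3⟩ := hGH1 X G L h hG k c a' b' (by omega) (by omega)
        (fun i _ hi => step i (by omega)) v hv
      have h1 := hd i (by omega) (by omega)
      have h2 := tri u v (c i)
      have h3 : h * (k + 3) = 2 * h + h * (k + 1) := by ring
      omega
    obtain ⟨v1, hv1, hdv1⟩ := hG.thin (c a) (c b) (c a') u hu
    rcases hv1 with hv1 | hv1
    · exact case1 v1 hv1 (by omega)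
    · obtain ⟨v2, hv2, hdv2⟩ := hG.thin (c a') (c b) (c b') v1 hv1
      have h3 := tri u v1 v2
      rcases hv2 with hv2 | hv2
      · exact case2 v2 hv2 (by omega)
      · exact case3 v2 hv2 (by omega)
  intro u hu
  obtain ⟨i, -, hi2, hi3⟩ := hNP 0 N (Nat.zero_le _) le_rfl u hu
  exact ⟨i, hi2, hi3.trans hDD⟩

end Pool.Agent.PFS.H92
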